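import Pool.Agent.Helper64.SPX.Spec

/-!
# COUNT: numbers of points of separated sets (MP_61fe1c_an)
-/

set_option autoImplicit false

open MeasureTheory Filter Topology Set
open scoped InnerProductSpace ENNReal
open Pool.Agent.Helper64.SPX

namespace Pool.Agent.Helper25.SPX.COUNT

/-- packing of disjoint balls -/
lemma card_mul_le {ι : Type} [Fintype ι] {Λ : Set (E ι)} {r : ℝ} (hr : 0 < r) (hs : Sep r Λ) (R : ℝ)
    (T : Finset (E ι)) (hT : (T : Set (E ι)) ⊆ Λ ∩ Metric.closedBall 0 R) :
    (T.card : ℝ) * (volume (Metric.ball (0 : E ι) (r / 2))).toReal ≤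
      (volume (Metric.closedBall (0 : E ι) (R + r / 2))).toReal := by
  classical
  have hdisj : Set.PairwiseDisjoint (↑T : Set (E ι)) (fun a => Metric.ball a (r / 2)) := by
    intro a ha b hb hab
    apply Metric.ball_disjoint_ball
    rw [dist_eq_norm]
    have := hs a (hT ha).1 b (hT hb).1 hab
    linarith
  have hsub : (⋃ a ∈ T, Metric.ball a (r / 2)) ⊆ Metric.closedBall (0 : E ι) (R + r / 2) := by
    intro x hx
    simp only [Set.mem_iUnion] at hx
    obtain ⟨a, ha, hx⟩ := hx
    have h1 := (hT ha).2
    rw [Metric.mem_closedBall] at *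
    rw [Metric.mem_ball] at hx
    calc dist x 0 ≤ dist x a + dist a 0 := dist_triangle _ _ _
      _ ≤ R + r / 2 := by linarith
  have hm := measure_mono (μ := volume) hsub
  rw [measure_biUnion_finset hdisj (fun a _ => measurableSet_ball)] at hm
  have hcong : ∀ a ∈ T, volume (Metric.ball a (r / 2)) = volume (Metric.ball (0 : E ι) (r / 2)) :=
    fun a _ => Measure.addHaar_ball_center volume a (r / 2)
  rw [Finset.sum_congr rfl hcong, Finset.sum_const, nsmul_eq_mul] at hm
  have h2 := ENNReal.toReal_mono measure_closedBall_lt_top.ne hm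
  rwa [ENNReal.toReal_mul, ENNReal.toReal_natCast] at h2

theorem main : S_COUNT := by
  classical
  intro ι _ Λ r hr hs
  have hb : 0 < (volume (Metric.ball (0 : E ι) (r / 2))).toReal :=
    ENNReal.toReal_pos (Metric.measure_ball_pos volume 0 (by positivity)).ne' measure_ball_lt_top.ne
  refine ⟨?_, ?_⟩
  · intro R
    by_contra hinf
    obtain ⟨n, hn⟩ := exists_nat_gt
      ((volume (Metric.closedBall (0 : E ι) (R + r / 2))).toReal /
        (volume (Metric.ball (0 : E ι) (r / 2))).toReal)
    obtain ⟨T, hT, hc⟩ := Set.Infinite.exists_subset_card_eq hinf n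
    have h1 := card_mul_le hr hs R T hT
    rw [hc] at h1
    rw [div_lt_iff₀ hb] at hn
    linarith
  · have hdim := fun R (hR : 0 ≤ R) => Measure.addHaar_closedBall (volume : Measure (E ι)) 0 (r := R) hR
    set n := Module.finrank ℝ (E ι) with hn
    refine ⟨(1 + r / 2) ^ n / (volume (Metric.ball (0 : E ι) (r / 2))).toReal, ?_⟩
    intro R hR S hS
    have h1 := card_mul_le hr hs R S hS.le
    have h0 : 0 ≤ R := by linarith
    have e1 : q ι R = R ^ n * (volume (Metric.ball (0 : E ι) 1)).toReal := by
      unfold q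
      rw [hdim R h0, ENNReal.toReal_mul, ENNReal.toReal_ofReal (by positivity)]
    have e2 : (volume (Metric.closedBall (0 : E ι) (R + r / 2))).toReal =
        (R + r / 2) ^ n * (volume (Metric.ball (0 : E ι) 1)).toReal := by
      rw [hdim _ (by positivity), ENNReal.toReal_mul, ENNReal.toReal_ofReal (by positivity)]
    have h3 : (R + r / 2) ^ n ≤ ((1 + r / 2) * R) ^ n := by
      apply pow_le_pow_left₀ (by positivity)
      nlinarith
    have hv : 0 ≤ (volume (Metric.ball (0 : E ι) 1)).toReal := ENNReal.toReal_nonneg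
    rw [div_mul_eq_mul_div, le_div_iff₀ hb]
    calc (S.card : ℝ) * (volume (Metric.ball (0 : E ι) (r / 2))).toReal
        ≤ (volume (Metric.closedBall (0 : E ι) (R + r / 2))).toReal := h1
      _ = (R + r / 2) ^ n * (volume (Metric.ball (0 : E ι) 1)).toReal := e2
      _ ≤ ((1 + r / 2) * R) ^ n * (volume (Metric.ball (0 : E ι) 1)).toReal := by
          exact mul_le_mul_of_nonneg_right h3 hv
      _ = (1 + r / 2) ^ n * q ι R := by rw [e1, mul_pow]; ring

end Pool.Agent.Helper25.SPX.COUNT
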